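import Pool.Agent.Helper20.Luzin.Rec

/-!
# Luzin subspaces when the cofinality of the ideal is below the bounding number of `κ`
-/

set_option autoImplicit false

namespace Pool.Agent.Helper20.Luzin

open Set Topology Metric Cardinal

/-- The bounding number `𝔟(κ)`: the least size of a family of functions `κ → κ` such that no single
function `κ → κ` dominates every member of the family on a final segment of `κ`. -/
noncomputable def bNumber (κ : Cardinal.{0}) : Cardinal.{0} :=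
  sInf {c | ∃ F : Set (κ.ord.ToType → κ.ord.ToType), #F = c ∧
    ¬ ∃ g : κ.ord.ToType → κ.ord.ToType, ∀ f ∈ F, ∃ a, ∀ b, a ≤ b → f b ≤ g b}

/-- The cofinality `cof(I)` of a family `I` of sets: the least size of a subfamily `F` such that every
member of `I` is contained in a member of `F`. -/
noncomputable def cofIdeal {E : Type} (I : Set (Set E)) : Cardinal.{0} :=
  sInf {c | ∃ F : Set (Set E), F ⊆ I ∧ #F = c ∧ ∀ A ∈ I, ∃ B ∈ F, A ⊆ B}

theorem exists_cofinal {E : Type} (I : Set (Set E)) :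
    ∃ F : Set (Set E), F ⊆ I ∧ #F = cofIdeal I ∧ ∀ A ∈ I, ∃ B ∈ F, A ⊆ B := by
  have hne : {c | ∃ F : Set (Set E), F ⊆ I ∧ #F = c ∧ ∀ A ∈ I, ∃ B ∈ F, A ⊆ B}.Nonempty :=
    ⟨#I, I, Subset.rfl, rfl, fun A hA => ⟨A, hA, Subset.rfl⟩⟩
  exact csInf_mem hne

theorem bounded_of_lt {κ : Cardinal.{0}} {F : Set (κ.ord.ToType → κ.ord.ToType)}
    (hF : #F < bNumber κ) :
    ∃ g : κ.ord.ToType → κ.ord.ToType, ∀ f ∈ F, ∃ a, ∀ b, a ≤ b → f b ≤ g b := by
  by_contra h
  have : bNumber κ ≤ #F := csInf_le' ⟨F, rfl, h⟩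
  exact absurd hF (not_lt.2 this)

variable {E : Type} [AddCommGroup E] [Module ℚ E]

theorem mk_span_lt {κ : Cardinal.{0}} (hκ : ℵ₀ < κ) {S : Set E} (hS : #S < κ) :
    #((Submodule.span ℚ S : Submodule ℚ E) : Set E) < κ := by
  rw [Finsupp.span_eq_range_linearCombination, LinearMap.coe_range]
  refine mk_range_le.trans_lt ?_
  cases isEmpty_or_nonempty S with
  | inl h =>
    have : Subsingleton (S →₀ ℚ) := inferInstance
    exact (le_one_iff_subsingleton.2 this).trans_lt (one_lt_aleph0.trans hκ)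
  | inr h =>
    rw [mk_finsupp_of_infinite' S ℚ]
    simpa using ⟨hS, hκ⟩

section
variable {κ : Cardinal.{0}}

theorem exists_bound (hreg : κ.IsRegular) {S : Set κ.ord.ToType} (hS : #S < κ) :
    ∃ x, ∀ y ∈ S, y < x := by
  by_contra h
  push Not at h
  have hc : IsCofinal S := fun x => by
    obtain ⟨y, hy, hxy⟩ := h x
    exact ⟨y, hy, hxy⟩
  have := Order.cof_le hc
  rw [Ordinal.cof_toType, hreg.cof_ord] at this
  exact absurd hS (not_lt.2 this)

open Classical in
/-- a strict upper bound of a small set -/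
noncomputable def bd (i₀ : κ.ord.ToType) (S : Set κ.ord.ToType) : κ.ord.ToType :=
  if h : ∃ x, ∀ y ∈ S, y < x then h.choose else i₀

theorem lt_bd (hreg : κ.IsRegular) (i₀ : κ.ord.ToType) {S : Set κ.ord.ToType} (hS : #S < κ)
    {y : κ.ord.ToType} (hy : y ∈ S) : y < bd i₀ S := by
  rw [bd, dif_pos (exists_bound hreg hS)]
  exact (exists_bound hreg hS).choose_spec y hy

/-- the indices -/
noncomputable def gam (i₀ : κ.ord.ToType) (g : κ.ord.ToType → κ.ord.ToType) (i : κ.ord.ToType) :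
    κ.ord.ToType :=
  WellFounded.fix (C := fun _ => κ.ord.ToType) (wellFounded_lt (α := κ.ord.ToType))
    (fun i rec => bd i₀ {bd i₀ ({z | ∃ (j : κ.ord.ToType) (h : j < i), rec j h = z} ∪ {i}),
      g (bd i₀ ({z | ∃ (j : κ.ord.ToType) (h : j < i), rec j h = z} ∪ {i}))}) i

theorem gam_spec (hreg : κ.IsRegular) (i₀ : κ.ord.ToType) (g : κ.ord.ToType → κ.ord.ToType)
    (i : κ.ord.ToType) : ∃ h : κ.ord.ToType, i < h ∧ (∀ j, j < i → gam i₀ g j < h) ∧
      h < gam i₀ g i ∧ g h < gam i₀ g i := by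
  have hcard : ∀ i : κ.ord.ToType, #({z | ∃ (j : κ.ord.ToType) (_ : j < i), gam i₀ g j = z} ∪ {i} :
      Set κ.ord.ToType) < κ := by
    intro i
    refine (mk_union_le _ _).trans_lt (add_lt_of_lt hreg.aleph0_le ?_ ?_)
    · have h1 : {z | ∃ (j : κ.ord.ToType) (_ : j < i), gam i₀ g j = z} = gam i₀ g '' Iio i := by
        ext z
        simp only [mem_ofPred_eq, mem_image, mem_Iio, exists_prop]
      rw [h1]
      refine mk_image_le.trans_lt ?_
      simpa using mk_Iio_lt i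
    · rw [mk_singleton]; exact one_lt_aleph0.trans_le hreg.aleph0_le
  have heq : gam i₀ g i = bd i₀ {bd i₀ ({z | ∃ (j : κ.ord.ToType) (_ : j < i), gam i₀ g j = z} ∪ {i}),
      g (bd i₀ ({z | ∃ (j : κ.ord.ToType) (_ : j < i), gam i₀ g j = z} ∪ {i}))} := by
    conv_lhs => unfold gam
    rw [WellFounded.fix_eq]
    rfl
  set h := bd i₀ ({z | ∃ (j : κ.ord.ToType) (_ : j < i), gam i₀ g j = z} ∪ {i}) with hh
  have hpair : #({h, g h} : Set κ.ord.ToType) < κ :=
    (lt_aleph0_iff_finite.2 (Set.toFinite _).to_subtype).trans_le hreg.aleph0_le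
  refine ⟨h, ?_, ?_, ?_, ?_⟩
  · exact lt_bd hreg i₀ (hcard i) (Or.inr rfl)
  · intro j hj
    exact lt_bd hreg i₀ (hcard i) (Or.inl ⟨j, hj, rfl⟩)
  · rw [heq]; exact lt_bd hreg i₀ hpair (Or.inl rfl)
  · rw [heq]; exact lt_bd hreg i₀ hpair (Or.inr rfl)

end

theorem below_b {κ : Cardinal.{0}} (hκ : ℵ₀ < κ) (hreg : κ.IsRegular) (I : Set (Set E))
    (hI : ∀ A ∈ I, ∀ s : E, ∀ q : ℚ, q ≠ 0 → {z : E | q • (z + s) ∈ A} ∈ I)
    (hb : cofIdeal I < bNumber κ) {X : Set E} (hX : κ ≤ #X)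
    (hX' : ∀ A ∈ I, #(X ∩ A : Set E) < κ) :
    ∃ G : Submodule ℚ E, κ ≤ #(G : Set E) ∧ ∀ A ∈ I, #((G : Set E) ∩ A : Set E) < κ := by
  obtain ⟨F, hFI, hFc, hFcof⟩ := exists_cofinal I
  have hIio : ∀ i : κ.ord.ToType, #(Iio i) < κ := fun i => by simpa using mk_Iio_lt i
  set ι := κ.ord.ToType with hι
  have hιc : #ι = κ := by simp [hι]
  have hne : Nonempty ι := by
    rw [← mk_ne_zero_iff, hιc]; exact hreg.ne_zero
  obtain ⟨i₀⟩ := hne
  rw [← hιc] at hX
  obtain ⟨e⟩ := hX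
  -- the bad set
  set B : Set E → ι → Set ι := fun A i =>
    {k | ∃ s ∈ Submodule.span ℚ ((fun j => (e j).1) '' Iio i), ∃ q : ℚ, q ≠ 0 ∧
      q • ((e k).1 + s) ∈ A} with hB
  have hinj : Function.Injective fun i => (e i).1 := Subtype.val_injective.comp e.injective
  have hBc : ∀ A ∈ I, ∀ i, #(B A i) < κ := by
    intro A hA i
    set S : Set E := ((Submodule.span ℚ ((fun j => (e j).1) '' Iio i) : Submodule ℚ E) : Set E)
      with hS
    have hSc : #S < κ := mk_span_lt hκ (mk_image_le.trans_lt (hIio i))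
    have hsub : B A i ⊆ ⋃ p : S × ℚ, {k : ι | p.2 ≠ 0 ∧ p.2 • ((e k).1 + p.1.1) ∈ A} := by
      rintro k ⟨s, hs, q, hq, hk⟩
      exact mem_iUnion.2 ⟨(⟨s, hs⟩, q), hq, hk⟩
    refine (mk_le_mk_of_subset hsub).trans_lt ?_
    rw [card_iUnion_lt_iff_forall_of_isRegular hreg]
    · rintro ⟨s, q⟩
      by_cases hq : q = 0
      · subst hq
        simp only [ne_eq, not_true_eq_false, false_and]
        have : {k : ι | False} = ∅ := by ext; simp
        rw [this, mk_eq_zero]
        exact pos_iff_ne_zero.2 hreg.ne_zero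
      · have h1 := hX' _ (hI A hA s.1 q hq)
        refine lt_of_le_of_lt ?_ h1
        have hmap : ∀ k : {k : ι | q ≠ 0 ∧ q • ((e k).1 + s.1) ∈ A},
            (e k.1).1 ∈ X ∩ {z : E | q • (z + s.1) ∈ A} := fun k => ⟨(e k.1).2, k.2.2⟩
        exact mk_le_of_injective (f := fun k => ⟨(e k.1).1, hmap k⟩) fun k l hkl => by
          have := congrArg Subtype.val hkl
          exact Subtype.ext (hinj this)
    · rw [mk_prod, lift_id, lift_id]
      refine mul_lt_of_lt hκ.le hSc ?_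
      simpa using hκ
  -- the functions to dominate
  set δ : Set E → ι → ι := fun A i => bd i₀ (B A i) with hδ
  have hfam : #(δ '' F) < bNumber κ := (mk_image_le.trans_eq hFc).trans_lt hb
  obtain ⟨g, hg⟩ := bounded_of_lt hfam
  set y : ι → E := fun i => (e (gam i₀ g i)).1 with hy
  have hgmono : StrictMono (gam i₀ g) := by
    intro j i hji
    obtain ⟨h, -, h2, h3, -⟩ := gam_spec hreg i₀ g i
    exact (h2 j hji).trans h3
  have key : ∀ A ∈ I, ∃ a : ι, ∀ i, a ≤ i →
      ∀ s ∈ Submodule.span ℚ (y '' Iio i), ∀ q : ℚ, q ≠ 0 → q • (y i + s) ∉ A := by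
    intro A hA
    obtain ⟨A', hA', hAA'⟩ := hFcof A hA
    obtain ⟨a, ha⟩ := hg (δ A') ⟨A', hA', rfl⟩
    refine ⟨a, fun i hi s hs q hq hmem => ?_⟩
    obtain ⟨h, h1, h2, h3, h4⟩ := gam_spec hreg i₀ g i
    have hd : δ A' h ≤ g h := ha h (hi.trans h1.le)
    have hmemB : gam i₀ g i ∈ B A' h := by
      refine ⟨s, ?_, q, hq, hAA' hmem⟩
      refine Submodule.span_mono ?_ hs
      rintro _ ⟨j, hj, rfl⟩
      exact ⟨gam i₀ g j, h2 j hj, rfl⟩
    have hlt : gam i₀ g i < δ A' h := lt_bd hreg i₀ (hBc A' (hFI hA') h) hmemB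
    exact absurd (hlt.trans_le (hd.trans h4.le)) (lt_irrefl _)
  refine ⟨Submodule.span ℚ (range y), ?_, ?_⟩
  · have hyinj : Function.Injective y := hinj.comp hgmono.injective
    rw [← hιc, ← mk_range_eq y hyinj]
    exact mk_le_mk_of_subset Submodule.subset_span
  · intro A hA
    obtain ⟨a, ha⟩ := key A hA
    have hsub : (((Submodule.span ℚ (range y) : Submodule ℚ E) : Set E) ∩ A) ⊆
        ((Submodule.span ℚ (y '' Iio a) : Submodule ℚ E) : Set E) := by
      rintro z ⟨hz, hzA⟩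
      by_cases h0 : z = 0
      · rw [h0]; exact Submodule.zero_mem _
      obtain ⟨i, q, s, hq, hs, rfl⟩ := exists_top y hz h0
      have hi : i < a := by
        by_contra hi
        exact ha i (not_lt.1 hi) s hs q hq hzA
      refine Submodule.smul_mem _ _ (Submodule.add_mem _ (Submodule.subset_span ⟨i, hi, rfl⟩) ?_)
      exact Submodule.span_mono (image_mono (Iio_subset_Iio hi.le)) hs
    exact (mk_le_mk_of_subset hsub).trans_lt (mk_span_lt hκ (mk_image_le.trans_lt (hIio a)))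

end Pool.Agent.Helper20.Luzin
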