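import Pool.Agent.Helper20.Luzin.Coding

/-!
# Binary digits of a generic point are generic
-/

set_option autoImplicit false

namespace Pool.Agent.Helper20.Luzin

open Set Topology Metric

/-- The binary digits of the first coordinate. -/
def bits {n : ℕ} (x : Fin (n + 1) → ℝ) (j : ℕ) : Prop := Odd ⌊(2 : ℝ) ^ (j + 1) * x 0⌋

theorem bits_density {n : ℕ} {V : Set (Fin (n + 1) → ℝ)} (hV : IsOpen V) (hne : V.Nonempty) :
    ∃ i : ℕ, ∀ j, i ≤ j → ∃ V' : Set (Fin (n + 1) → ℝ), V' ⊆ V ∧ IsOpen V' ∧ V'.Nonempty ∧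
      ∀ x ∈ V', (∀ l, i ≤ l → l < j → ¬ bits x l) ∧ bits x j := by
  obtain ⟨x, hx⟩ := hne
  obtain ⟨ε, hε, hεV⟩ := Metric.isOpen_iff.1 hV x hx
  obtain ⟨i, hi⟩ := exists_pow_lt_of_lt_one hε (show (1 / 2 : ℝ) < 1 by norm_num)
  set m : ℤ := ⌊(2 : ℝ) ^ i * x 0⌋ with hm
  have hm1 : (m : ℝ) ≤ 2 ^ i * x 0 := Int.floor_le _
  have hm2 : 2 ^ i * x 0 < m + 1 := Int.lt_floor_add_one _
  refine ⟨i, fun j hij => ?_⟩
  refine ⟨{x' | x' ∈ ball x ε ∧ 2 ^ (j + 1 - i) * (m : ℝ) + 1 < 2 ^ (j + 1) * x' 0 ∧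
    2 ^ (j + 1) * x' 0 < 2 ^ (j + 1 - i) * (m : ℝ) + 2}, fun x' hx' => hεV hx'.1, ?_, ?_, ?_⟩
  · refine isOpen_ball.inter (IsOpen.inter ?_ ?_)
    · exact isOpen_lt continuous_const (continuous_const.mul (continuous_apply 0))
    · exact isOpen_lt (continuous_const.mul (continuous_apply 0)) continuous_const
  · have hpow : (2 : ℝ) ^ (j + 1) = 2 ^ (j + 1 - i) * 2 ^ i := by
      rw [← pow_add]; congr 1; omega
    have hp1 : (0 : ℝ) < 2 ^ i := by positivity
    have hp2 : (2 : ℝ) ≤ 2 ^ (j + 1 - i) := by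
      calc (2 : ℝ) = 2 ^ 1 := by norm_num
        _ ≤ 2 ^ (j + 1 - i) := pow_le_pow_right₀ (by norm_num) (by omega)
    set w : ℝ := (2 ^ (j + 1 - i) * (m : ℝ) + 3 / 2) / 2 ^ (j + 1) with hw
    have hw' : 2 ^ (j + 1) * w = 2 ^ (j + 1 - i) * (m : ℝ) + 3 / 2 := by
      rw [hw]; field_simp
    refine ⟨Function.update x 0 w, ?_, ?_, ?_⟩
    · rw [mem_ball, dist_pi_lt_iff hε]
      intro c
      by_cases hc : c = 0
      · subst hc
        rw [Function.update_self, Real.dist_eq]
        have h1 : 2 ^ i * w = m + (3 / 2) / 2 ^ (j + 1 - i) := by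
          have : (2 : ℝ) ^ (j + 1 - i) * (2 ^ i * w) = 2 ^ (j + 1 - i) * (m : ℝ) + 3 / 2 := by
            rw [← mul_assoc, ← hpow, hw']
          have hp3 : (2 : ℝ) ^ (j + 1 - i) ≠ 0 := by positivity
          field_simp
          linarith
        have h2 : (3 / 2 : ℝ) / 2 ^ (j + 1 - i) < 1 := by
          rw [div_lt_one (by positivity)]
          linarith
        have h3 : (0 : ℝ) < (3 / 2 : ℝ) / 2 ^ (j + 1 - i) := by positivity
        have h4 : |2 ^ i * w - 2 ^ i * x 0| < 1 := by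
          rw [abs_lt]
          constructor <;> linarith
        have h5 : |w - x 0| < 1 / 2 ^ i := by
          rw [← mul_sub, abs_mul, abs_of_pos hp1] at h4
          rwa [lt_div_iff₀ hp1, mul_comm]
        calc |w - x 0| < 1 / 2 ^ i := h5
          _ = (1 / 2) ^ i := by rw [one_div_pow]
          _ < ε := hi
      · rw [Function.update_of_ne hc, dist_self]
        exact hε
    · rw [Function.update_self, hw']; linarith
    · rw [Function.update_self, hw']; linarith
  · rintro x' ⟨-, h1, h2⟩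
    constructor
    · intro l hil hlj
      unfold bits
      rw [Int.not_odd_iff_even]
      have hfl : ⌊(2 : ℝ) ^ (l + 1) * x' 0⌋ = 2 ^ (l + 1 - i) * m := by
        rw [Int.floor_eq_iff]
        have hpow : (2 : ℝ) ^ (j + 1) = 2 ^ (j - l) * 2 ^ (l + 1) := by
          rw [← pow_add]; congr 1; omega
        have hpow' : (2 : ℝ) ^ (j + 1 - i) = 2 ^ (j - l) * 2 ^ (l + 1 - i) := by
          rw [← pow_add]; congr 1; omega
        have hp2 : (2 : ℝ) ≤ 2 ^ (j - l) := by
          calc (2 : ℝ) = 2 ^ 1 := by norm_num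
            _ ≤ 2 ^ (j - l) := pow_le_pow_right₀ (by norm_num) (by omega)
        rw [hpow, hpow'] at h1 h2
        push_cast
        have hp : (0 : ℝ) < 2 ^ (j - l) := by positivity
        constructor
        · have : 2 ^ (j - l) * (2 ^ (l + 1 - i) * (m : ℝ)) ≤ 2 ^ (j - l) * (2 ^ (l + 1) * x' 0) := by
            nlinarith
          exact le_of_mul_le_mul_left this hp
        · have : 2 ^ (j - l) * (2 ^ (l + 1) * x' 0) <
              2 ^ (j - l) * (2 ^ (l + 1 - i) * (m : ℝ) + 1) := by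
            nlinarith
          exact lt_of_mul_lt_mul_left this hp.le
      rw [hfl]
      have : l + 1 - i = (l - i) + 1 := by omega
      rw [this, pow_succ]
      exact (even_two.mul_left _).mul_right _
    · unfold bits
      have hfl : ⌊(2 : ℝ) ^ (j + 1) * x' 0⌋ = 2 ^ (j + 1 - i) * m + 1 := by
        rw [Int.floor_eq_iff]
        push_cast
        constructor <;> linarith
      rw [hfl]
      have : j + 1 - i = (j - i) + 1 := by omega
      rw [this, pow_succ]
      exact ((even_two.mul_left _).mul_right _).add_one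

variable {E : Type*} [NormedAddCommGroup E] [NormedSpace ℝ E] [FiniteDimensional ℝ E]

theorem good_residual {n : ℕ} {U : ℕ → Set E} (hU : ∀ m, IsOpen (U m))
    (hd : ∀ m, Dense (U m)) : {x | Good (bits x) U} ∈ residual (Fin (n + 1) → ℝ) := by
  have key : ∀ a N m : ℕ, {x : Fin (n + 1) → ℝ | ∃ i j P d, i ≤ j ∧
      (∀ l, i ≤ l → l < j → ¬ bits x l) ∧ bits x j ∧
      tok j = (a, P, d) ∧ Correct P d (U m) (lrad i) N} ∈ residual (Fin (n + 1) → ℝ) := by
    intro a N m
    set S := {x : Fin (n + 1) → ℝ | ∃ i j P d, i ≤ j ∧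
      (∀ l, i ≤ l → l < j → ¬ bits x l) ∧ bits x j ∧
      tok j = (a, P, d) ∧ Correct P d (U m) (lrad i) N} with hS
    have hdense : Dense (interior S) := by
      rw [dense_iff_inter_open]
      intro V hV hne
      obtain ⟨i, hi⟩ := bits_density hV hne
      obtain ⟨P, d, hPd⟩ := exists_correct (hU m) (hd m) (lrad_pos i) N
      obtain ⟨j, hij, hj⟩ := tok_spec (a, P, d) i
      obtain ⟨V', hV', hV'o, ⟨x, hx⟩, hprop⟩ := hi j hij
      refine ⟨x, hV' hx, ?_⟩
      refine mem_interior.2 ⟨V', fun z hz => ?_, hV'o, hx⟩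
      exact ⟨i, j, P, d, hij, (hprop z hz).1, (hprop z hz).2, hj, hPd⟩
    exact Filter.mem_of_superset (residual_of_dense_open isOpen_interior hdense) interior_subset
  have h2 : (⋂ a : ℕ, ⋂ N : ℕ, ⋂ m : ℕ, {x : Fin (n + 1) → ℝ | ∃ i j P d, i ≤ j ∧
      (∀ l, i ≤ l → l < j → ¬ bits x l) ∧ bits x j ∧
      tok j = (a, P, d) ∧ Correct P d (U m) (lrad i) N}) ∈ residual (Fin (n + 1) → ℝ) := by
    simp only [countable_iInter_mem]
    exact key
  refine Filter.mem_of_superset h2 fun x hx => ?_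
  simp only [mem_iInter] at hx
  exact fun a N m => hx a N m

/-- The coding map: for every meagre `M` there is a meagre `M'` such that for `x ∉ M'`, every translate of
`Phi (bits x) s` by a member of the sequence `s` lies outside `M`, for every sequence `s`. -/
theorem exists_meagre_of_meagre (n : ℕ) {M : Set E} (hM : IsMeagre M) :
    ∃ M' : Set (Fin (n + 1) → ℝ), IsMeagre M' ∧
      ∀ x, x ∉ M' → ∀ (s : ℕ → E) (a : ℕ), Phi (bits x) s + s a ∉ M := by
  rw [IsMeagre, mem_residual_iff] at hM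
  obtain ⟨S, hSo, hSd, hSc, hSM⟩ := hM
  have hSc' : (insert univ S).Countable := hSc.insert _
  obtain ⟨U, hU⟩ := hSc'.exists_eq_range (insert_nonempty _ _)
  have hUo : ∀ m, IsOpen (U m) := by
    intro m
    have : U m ∈ insert univ S := by rw [hU]; exact mem_range_self m
    rcases this with h | h
    · rw [h]; exact isOpen_univ
    · exact hSo _ h
  have hUd : ∀ m, Dense (U m) := by
    intro m
    have : U m ∈ insert univ S := by rw [hU]; exact mem_range_self m
    rcases this with h | h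
    · rw [h]; exact dense_univ
    · exact hSd _ h
  refine ⟨{x : Fin (n + 1) → ℝ | Good (bits x) U}ᶜ, ?_, ?_⟩
  · rw [IsMeagre, compl_compl]
    exact good_residual hUo hUd
  · intro x hx s a hmem
    rw [notMem_compl_iff] at hx
    have : Phi (bits x) s + s a ∈ ⋂₀ S := by
      intro t ht
      have : t ∈ range U := by rw [← hU]; exact mem_insert_of_mem _ ht
      obtain ⟨m, rfl⟩ := this
      exact Good.mem hx s a m
    exact hSM this hmem

end Pool.Agent.Helper20.Luzin
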