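import Mathlib

/-!
# Coding a generic point against countably many translates

For a sequence of bits `b` and a sequence `s` of vectors of `ℝⁿ` we construct a point `Phi b s` such that,
if the bits are generic for a sequence `U` of dense open sets (`Good`), then
`Phi b s + s a ∈ U m` for all `a` and all `m`, *whatever the sequence `s` is*.
-/

set_option autoImplicit false
set_option linter.style.haveILetI false

namespace Pool.Agent.Helper20.Luzin

open Set Topology Metric

noncomputable section

/-- A token: index of a translate, a finite set of centres, a precision. -/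
abbrev Token := ℕ × Finset ℕ × ℕ

/-- An enumeration of the tokens in which every token appears infinitely often. -/
theorem exists_tok : ∃ tok : ℕ → Token, ∀ t i, ∃ j, i ≤ j ∧ tok j = t := by
  obtain ⟨g, hg⟩ := exists_surjective_nat Token
  refine ⟨fun j => g (Nat.unpair j).1, fun t i => ?_⟩
  obtain ⟨k, hk⟩ := hg t
  exact ⟨Nat.pair k i, Nat.right_le_pair k i, by simp [hk]⟩

def tok : ℕ → Token := exists_tok.choose

theorem tok_spec (t : Token) (i : ℕ) : ∃ j, i ≤ j ∧ tok j = t := exists_tok.choose_spec t i

/-- The precision `1/(d+1)`. -/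
def prec (d : ℕ) : ℝ := 1 / ((d : ℝ) + 1)

theorem prec_pos (d : ℕ) : 0 < prec d := by unfold prec; positivity

theorem prec_anti {d e : ℕ} (h : d ≤ e) : prec e ≤ prec d := by
  unfold prec
  exact one_div_le_one_div_of_le (by positivity) (by have : (d : ℝ) ≤ e := by exact_mod_cast h
                                                     linarith)

/-- radii of the construction -/
def rad (b : ℕ → Prop) : ℕ → ℝ
  | 0 => 1
  | j + 1 => by
      classical
      exact if b j then min (rad b j) (prec (tok j).2.2) / 2 else rad b j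

/-- a lower bound for the radius at stage `j`, independent of the bits -/
def lrad : ℕ → ℝ
  | 0 => 1
  | j + 1 => min (lrad j) (prec (tok j).2.2) / 2

theorem lrad_pos (j : ℕ) : 0 < lrad j := by
  induction j with
  | zero => simp [lrad]
  | succ j ih =>
    rw [lrad]
    have := prec_pos (tok j).2.2
    have : 0 < min (lrad j) (prec (tok j).2.2) := lt_min ih this
    linarith

theorem lrad_le_rad (b : ℕ → Prop) (j : ℕ) : lrad j ≤ rad b j := by
  induction j with
  | zero => simp [lrad, rad]
  | succ j ih =>
    rw [lrad, rad]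
    split_ifs with h
    · have : min (lrad j) (prec (tok j).2.2) ≤ min (rad b j) (prec (tok j).2.2) :=
        min_le_min ih le_rfl
      linarith
    · have h1 : min (lrad j) (prec (tok j).2.2) ≤ lrad j := min_le_left _ _
      have h2 := lrad_pos j
      linarith

theorem rad_pos (b : ℕ → Prop) (j : ℕ) : 0 < rad b j := (lrad_pos j).trans_le (lrad_le_rad b j)

theorem rad_succ_le (b : ℕ → Prop) (j : ℕ) : rad b (j + 1) ≤ rad b j := by
  rw [rad]
  split_ifs with h
  · have h1 : min (rad b j) (prec (tok j).2.2) ≤ rad b j := min_le_left _ _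
    have h2 := rad_pos b j
    linarith
  · exact le_rfl

theorem rad_eq_of_false (b : ℕ → Prop) {i j : ℕ} (hij : i ≤ j)
    (h : ∀ l, i ≤ l → l < j → ¬ b l) : rad b j = rad b i := by
  induction j, hij using Nat.le_induction with
  | base => rfl
  | succ j hij ih =>
    rw [rad, if_neg (h j hij (Nat.lt_succ_self j))]
    exact ih fun l h1 h2 => h l h1 (h2.trans (Nat.lt_succ_self j))

section Space

variable {E : Type*} [NormedAddCommGroup E] [NormedSpace ℝ E] [FiniteDimensional ℝ E]

/-- The dense sequence used for centres. -/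
def D (E : Type*) [NormedAddCommGroup E] [NormedSpace ℝ E] [FiniteDimensional ℝ E] : ℕ → E :=
  haveI : SecondCountableTopology E := by
    haveI := FiniteDimensional.proper ℝ E
    infer_instance
  TopologicalSpace.denseSeq E

theorem D_dense : DenseRange (D E) := by
  haveI : SecondCountableTopology E := by
    haveI := FiniteDimensional.proper ℝ E
    infer_instance
  exact TopologicalSpace.denseRange_denseSeq E

/-- The centres of the construction. -/
def cen (b : ℕ → Prop) (s : ℕ → E) : ℕ → E
  | 0 => 0
  | j + 1 => by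
      classical
      exact if b j then
        (if h : ∃ k ∈ (tok j).2.1,
            closedBall (D E k) (prec (tok j).2.2) ⊆ ball (cen b s j + s (tok j).1) (rad b j)
          then D E h.choose - s (tok j).1 else cen b s j)
        else cen b s j

theorem ball_nested (b : ℕ → Prop) (s : ℕ → E) (j : ℕ) :
    closedBall (cen b s (j + 1)) (rad b (j + 1)) ⊆ closedBall (cen b s j) (rad b j) := by
  by_cases hb : b j
  · by_cases h : ∃ k ∈ (tok j).2.1,
      closedBall (D E k) (prec (tok j).2.2) ⊆ ball (cen b s j + s (tok j).1) (rad b j)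
    · have hc : cen b s (j + 1) = D E h.choose - s (tok j).1 := by
        rw [cen, if_pos hb, dif_pos h]
      intro x hx
      have hr : rad b (j + 1) ≤ prec (tok j).2.2 := by
        rw [rad, if_pos hb]
        have h1 : min (rad b j) (prec (tok j).2.2) ≤ prec (tok j).2.2 := min_le_right _ _
        have h2 := prec_pos (tok j).2.2
        linarith
      have hx' : x + s (tok j).1 ∈ closedBall (D E h.choose) (prec (tok j).2.2) := by
        rw [mem_closedBall, dist_eq_norm] at hx ⊢
        rw [hc] at hx
        have : x + s (tok j).1 - D E h.choose = x - (D E h.choose - s (tok j).1) := by abel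
        rw [this]
        exact hx.trans hr
      have := h.choose_spec.2 hx'
      rw [mem_ball, dist_eq_norm] at this
      rw [mem_closedBall, dist_eq_norm]
      have e : x + s (tok j).1 - (cen b s j + s (tok j).1) = x - cen b s j := by abel
      rw [e] at this
      exact this.le
    · have hc : cen b s (j + 1) = cen b s j := by
        rw [cen, if_pos hb, dif_neg h]
      rw [hc]
      exact closedBall_subset_closedBall (rad_succ_le b j)
  · have hc : cen b s (j + 1) = cen b s j := by
      rw [cen, if_neg hb]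
    rw [hc]
    exact closedBall_subset_closedBall (rad_succ_le b j)

theorem iInter_nonempty (b : ℕ → Prop) (s : ℕ → E) :
    (⋂ j, closedBall (cen b s j) (rad b j)).Nonempty := by
  have := FiniteDimensional.proper ℝ E
  exact IsCompact.nonempty_iInter_of_sequence_nonempty_isCompact_isClosed _
    (ball_nested b s) (fun j => ⟨cen b s j, mem_closedBall_self (rad_pos b j).le⟩)
    (isCompact_closedBall _ _) (fun j => isClosed_closedBall)

/-- The coded point. -/
def Phi (b : ℕ → Prop) (s : ℕ → E) : E := (iInter_nonempty b s).choose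

theorem Phi_mem (b : ℕ → Prop) (s : ℕ → E) (j : ℕ) :
    Phi b s ∈ closedBall (cen b s j) (rad b j) :=
  mem_iInter.1 (iInter_nonempty b s).choose_spec j

theorem ball_nested_zero (b : ℕ → Prop) (s : ℕ → E) (j : ℕ) :
    closedBall (cen b s j) (rad b j) ⊆ closedBall (0 : E) 1 := by
  induction j with
  | zero => simp [cen, rad]
  | succ j ih => exact (ball_nested b s j).trans ih

theorem norm_cen_le (b : ℕ → Prop) (s : ℕ → E) (j : ℕ) : ‖cen b s j‖ ≤ 1 := by
  have := ball_nested_zero b s j (mem_closedBall_self (rad_pos b j).le)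
  simpa using this

/-- The token `(P, d)` is correct for the set `U`, at radius `ρ` and size `N`. -/
def Correct (P : Finset ℕ) (d : ℕ) (U : Set E) (ρ : ℝ) (N : ℕ) : Prop :=
  (∀ k ∈ P, closedBall (D E k) (prec d) ⊆ U) ∧
    ∀ z ∈ closedBall (0 : E) N, ∃ k ∈ P, closedBall (D E k) (prec d) ⊆ ball z ρ

theorem exists_correct {U : Set E} (hU : IsOpen U) (hd : Dense U) {ρ : ℝ} (hρ : 0 < ρ) (N : ℕ) :
    ∃ P d, Correct P d U ρ N := by
  have := FiniteDimensional.proper ℝ E
  have key : ∃ (P : Finset ℕ) (d : ℕ), (∀ k ∈ P, closedBall (D E k) (prec d) ⊆ U) ∧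
      ∀ z ∈ closedBall (0 : E) N, ∃ k ∈ P, closedBall (D E k) (prec d) ⊆ ball z ρ := by
    refine (isCompact_closedBall (0 : E) (N : ℝ)).induction_on
      (p := fun S => ∃ (P : Finset ℕ) (d : ℕ), (∀ k ∈ P, closedBall (D E k) (prec d) ⊆ U) ∧
        ∀ z ∈ S, ∃ k ∈ P, closedBall (D E k) (prec d) ⊆ ball z ρ) ?_ ?_ ?_ ?_
    · exact ⟨∅, 0, by simp, by simp⟩
    · rintro S T hST ⟨P, d, h1, h2⟩
      exact ⟨P, d, h1, fun z hz => h2 z (hST hz)⟩
    · rintro S T ⟨P, d, h1, h2⟩ ⟨P', d', h1', h2'⟩
      classical
      have hd : ∀ k, closedBall (D E k) (prec (max d d')) ⊆ closedBall (D E k) (prec d) :=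
        fun k => closedBall_subset_closedBall (prec_anti (le_max_left _ _))
      have hd' : ∀ k, closedBall (D E k) (prec (max d d')) ⊆ closedBall (D E k) (prec d') :=
        fun k => closedBall_subset_closedBall (prec_anti (le_max_right _ _))
      refine ⟨P ∪ P', max d d', ?_, ?_⟩
      · intro k hk
        rcases Finset.mem_union.1 hk with hk | hk
        · exact (hd k).trans (h1 k hk)
        · exact (hd' k).trans (h1' k hk)
      · rintro z (hz | hz)
        · obtain ⟨k, hk, hk'⟩ := h2 z hz
          exact ⟨k, Finset.mem_union_left _ hk, (hd k).trans hk'⟩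
        · obtain ⟨k, hk, hk'⟩ := h2' z hz
          exact ⟨k, Finset.mem_union_right _ hk, (hd' k).trans hk'⟩
    · intro z _
      have ho : IsOpen (U ∩ ball z (ρ / 2)) := hU.inter isOpen_ball
      have hne : (U ∩ ball z (ρ / 2)).Nonempty := by
        rw [inter_comm]
        exact hd.inter_open_nonempty _ isOpen_ball ⟨z, mem_ball_self (by linarith)⟩
      obtain ⟨k, hk⟩ := D_dense.exists_mem_open ho hne
      obtain ⟨ε, hε, hεs⟩ := Metric.isOpen_iff.1 ho _ hk
      obtain ⟨d, hd⟩ := exists_nat_one_div_lt hε
      have hcl : closedBall (D E k) (prec d) ⊆ U ∩ ball z (ρ / 2) :=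
        (closedBall_subset_ball hd).trans hεs
      refine ⟨ball z (ρ / 2), mem_nhdsWithin_of_mem_nhds (ball_mem_nhds _ (by linarith)),
        {k}, d, ?_, ?_⟩
      · intro k' hk'
        rw [Finset.mem_singleton.1 hk']
        exact hcl.trans inter_subset_left
      · intro w hw
        refine ⟨k, Finset.mem_singleton_self k, fun x hx => ?_⟩
        have hx' := (hcl hx).2
        rw [mem_ball] at hx' hw ⊢
        calc dist x w ≤ dist x z + dist z w := dist_triangle _ _ _
          _ < ρ / 2 + ρ / 2 := by rw [dist_comm z w]; exact add_lt_add hx' hw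
          _ = ρ := by ring
  exact key

/-- The bits `b` are generic with respect to the sequence `U` of open sets. -/
def Good (b : ℕ → Prop) (U : ℕ → Set E) : Prop :=
  ∀ a N m : ℕ, ∃ i j P d, i ≤ j ∧ (∀ l, i ≤ l → l < j → ¬ b l) ∧ b j ∧
    tok j = (a, P, d) ∧ Correct P d (U m) (lrad i) N

theorem Good.mem {b : ℕ → Prop} {U : ℕ → Set E} (h : Good b U) (s : ℕ → E) (a m : ℕ) :
    Phi b s + s a ∈ U m := by
  obtain ⟨N, hN⟩ := exists_nat_ge (1 + ‖s a‖)
  obtain ⟨i, j, P, d, hij, hf, hb, ht, hc1, hc2⟩ := h a N m
  have hrad : lrad i ≤ rad b j := by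
    rw [rad_eq_of_false b hij hf]; exact lrad_le_rad b i
  have hz : cen b s j + s a ∈ closedBall (0 : E) N := by
    rw [mem_closedBall_zero_iff]
    calc ‖cen b s j + s a‖ ≤ ‖cen b s j‖ + ‖s a‖ := norm_add_le _ _
      _ ≤ 1 + ‖s a‖ := by gcongr; exact norm_cen_le b s j
      _ ≤ N := hN
  obtain ⟨k, hk, hk'⟩ := hc2 _ hz
  have hex : ∃ k ∈ (tok j).2.1,
      closedBall (D E k) (prec (tok j).2.2) ⊆ ball (cen b s j + s (tok j).1) (rad b j) := by
    rw [ht]
    exact ⟨k, hk, hk'.trans (ball_subset_ball hrad)⟩
  obtain ⟨k', hk', hcen⟩ : ∃ k' ∈ (tok j).2.1, cen b s (j + 1) = D E k' - s (tok j).1 :=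
    ⟨hex.choose, hex.choose_spec.1, by rw [cen, if_pos hb, dif_pos hex]⟩
  have hphi := Phi_mem b s (j + 1)
  have hr : rad b (j + 1) ≤ prec (tok j).2.2 := by
    rw [rad, if_pos hb]
    have h1 : min (rad b j) (prec (tok j).2.2) ≤ prec (tok j).2.2 := min_le_right _ _
    have h2 := prec_pos (tok j).2.2
    linarith
  rw [ht] at hk' hcen hr
  apply hc1 _ hk'
  rw [mem_closedBall, dist_eq_norm] at hphi ⊢
  rw [hcen] at hphi
  have : Phi b s + s a - D E k' = Phi b s - (D E k' - s a) := by abel
  rw [this]
  exact hphi.trans hr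

end Space

end

end Pool.Agent.Helper20.Luzin
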