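import Pool.Agent.Helper20.Luzin.Rec

/-!
# Luzin subspaces
-/

set_option autoImplicit false

namespace Pool.Agent.Helper20.Luzin

open Set Topology Metric Cardinal

theorem countable_isMeagre {E : Type*} [NormedAddCommGroup E] [NormedSpace ℝ E] [Nontrivial E]
    {S : Set E} (hS : S.Countable) : IsMeagre S := by
  have h : S = ⋃ x ∈ S, {x} := by simp
  rw [h]
  refine isMeagre_biUnion hS fun x _ => ?_
  apply IsNowhereDense.isMeagre
  rw [isClosed_singleton.isNowhereDense_iff]
  have := Module.punctured_nhds_neBot ℝ E x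
  exact interior_singleton x

theorem smul_isMeagre {k : ℕ} {M : Set (Fin (k + 1) → ℝ)} (hM : IsMeagre M) :
    IsMeagre {z : Fin (k + 1) → ℝ | ∃ q : ℚ, q ≠ 0 ∧ q • z ∈ M} := by
  have h : {z : Fin (k + 1) → ℝ | ∃ q : ℚ, q ≠ 0 ∧ q • z ∈ M} =
      ⋃ q : {q : ℚ // q ≠ 0}, (fun z : Fin (k + 1) → ℝ => q.1 • z) ⁻¹' M := by
    ext z
    simp only [mem_ofPred_eq, mem_iUnion, mem_preimage, Subtype.exists, exists_prop]
  rw [h]
  refine isMeagre_iUnion fun q => ?_
  have hq : (q.1 : ℝ) ≠ 0 := by exact_mod_cast q.2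
  have e : (fun z : Fin (k + 1) → ℝ => q.1 • z) = Homeomorph.smulOfNeZero (q.1 : ℝ) hq := by
    ext z c
    simp [Homeomorph.smulOfNeZero_apply, Rat.smul_def]
  rw [e]
  exact hM.preimage_of_isOpenMap (Homeomorph.continuous _) (Homeomorph.isOpenMap _)

theorem main (m k : ℕ) {X : Set (Fin (m + 1) → ℝ)} (hX : ℵ₁ ≤ #X)
    (hX' : ∀ A : Set (Fin (m + 1) → ℝ), IsMeagre A → #(X ∩ A : Set (Fin (m + 1) → ℝ)) < ℵ₁) :
    ∃ G : Submodule ℚ (Fin (k + 1) → ℝ), ℵ₁ ≤ #(G : Set (Fin (k + 1) → ℝ)) ∧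
      ∀ A : Set (Fin (k + 1) → ℝ), IsMeagre A → #((G : Set (Fin (k + 1) → ℝ)) ∩ A : Set (Fin (k + 1) → ℝ)) < ℵ₁ := by
  obtain ⟨ι, _, _, hι, hIio⟩ := exists_order
  rw [← hι] at hX
  obtain ⟨e⟩ := hX
  set F : ι → (ℕ → Fin (k + 1) → ℝ) → Fin (k + 1) → ℝ := fun i s => Phi (bits (e i).1) s with hF
  set y : ι → Fin (k + 1) → ℝ := seq F with hy
  -- countable initial segments
  have hc : ∀ i, ((Submodule.span ℚ (y '' Iio i) : Submodule ℚ (Fin (k + 1) → ℝ)) : Set (Fin (k + 1) → ℝ)).Countable := fun i =>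
    span_countable ((hIio i).image _)
  have hIic : ∀ i : ι, (Iic i).Countable := fun i => by
    rw [← Iio_insert]; exact (hIio i).insert i
  have hc' : ∀ i, ((Submodule.span ℚ (y '' Iic i) : Submodule ℚ (Fin (k + 1) → ℝ)) : Set (Fin (k + 1) → ℝ)).Countable := fun i =>
    span_countable ((hIic i).image _)
  -- key: for a meagre set, only countably many indices are bad
  have key : ∀ M : Set (Fin (k + 1) → ℝ), IsMeagre M → ∃ A : Set ι, A.Countable ∧
      ∀ i, i ∉ A → ∀ s ∈ Submodule.span ℚ (y '' Iio i), ∀ q : ℚ, q ≠ 0 → q • (y i + s) ∉ M := by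
    intro M hM
    obtain ⟨M', hM', hgood⟩ := exists_meagre_of_meagre m (smul_isMeagre hM)
    refine ⟨{i | (e i).1 ∈ M'}, ?_, ?_⟩
    · have h1 : (X ∩ M').Countable := by
        rw [← le_aleph0_iff_set_countable, ← lt_aleph_one_iff]
        exact hX' M' hM'
      have hinj : Function.Injective fun i => (e i).1 :=
        Subtype.val_injective.comp e.injective
      refine (h1.preimage hinj).mono ?_
      intro i hi
      exact mem_preimage.2 ⟨(e i).2, hi⟩
    · intro i hi s hs q hq hmem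
      obtain ⟨a, ha⟩ := mem_enum (hc i) hs
      have := hgood (e i).1 hi (enum (Submodule.span ℚ (y '' Iio i))) a
      apply this
      have hyi : y i = Phi (bits (e i).1) (enum (Submodule.span ℚ (y '' Iio i))) := by
        rw [hy, seq_eq]
      rw [← hyi, ha]
      exact ⟨q, hq, hmem⟩
  have hcount : ∀ M : Set (Fin (k + 1) → ℝ), IsMeagre M →
      (((Submodule.span ℚ (range y) : Submodule ℚ (Fin (k + 1) → ℝ)) : Set (Fin (k + 1) → ℝ)) ∩ M).Countable := by
    intro M hM
    obtain ⟨A, hA, hAM⟩ := key M hM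
    have hsub : (((Submodule.span ℚ (range y) : Submodule ℚ (Fin (k + 1) → ℝ)) : Set (Fin (k + 1) → ℝ)) ∩ M) ⊆
        {0} ∪ ⋃ i ∈ A, ((Submodule.span ℚ (y '' Iic i) : Submodule ℚ (Fin (k + 1) → ℝ)) : Set (Fin (k + 1) → ℝ)) := by
      rintro g ⟨hg, hgM⟩
      by_cases h0 : g = 0
      · left; exact h0
      right
      obtain ⟨i, q, s, hq, hs, rfl⟩ := exists_top y hg h0
      have hi : i ∈ A := by
        by_contra hi
        exact hAM i hi s hs q hq hgM
      refine mem_biUnion hi ?_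
      refine Submodule.smul_mem _ _ (Submodule.add_mem _ (Submodule.subset_span ⟨i, self_mem_Iic, rfl⟩) ?_)
      exact Submodule.span_mono (image_mono Iio_subset_Iic_self) hs
    exact ((countable_singleton _).union (hA.biUnion fun i _ => hc' i)).mono hsub
  refine ⟨Submodule.span ℚ (range y), ?_, ?_⟩
  · by_contra hlt
    rw [not_le, lt_aleph_one_iff, le_aleph0_iff_set_countable] at hlt
    obtain ⟨A, hA, hAM⟩ := key _ (countable_isMeagre hlt)
    have hne : ∃ i, i ∉ A := by
      by_contra hall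
      push Not at hall
      have : (univ : Set ι).Countable := hA.mono fun i _ => hall i
      rw [← le_aleph0_iff_set_countable, mk_univ, hι] at this
      exact absurd aleph0_lt_aleph_one (not_lt.2 this)
    obtain ⟨i, hi⟩ := hne
    apply hAM i hi 0 (Submodule.zero_mem _) 1 one_ne_zero
    rw [add_zero, one_smul]
    exact Submodule.subset_span (mem_range_self i)
  · intro M hM
    rw [lt_aleph_one_iff, le_aleph0_iff_set_countable]
    exact hcount M hM

end Pool.Agent.Helper20.Luzin
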