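import Pool.Agent.Helper20.Luzin.Bits

/-!
# The recursion
-/

set_option autoImplicit false

namespace Pool.Agent.Helper20.Luzin

open Set Topology Metric Cardinal

theorem exists_order : ∃ (ι : Type) (_ : LinearOrder ι) (_ : WellFoundedLT ι),
    #ι = ℵ₁ ∧ ∀ i : ι, (Iio i).Countable := by
  refine ⟨(ℵ₁ : Cardinal.{0}).ord.ToType, inferInstance, inferInstance, by simp, fun i => ?_⟩
  rw [← le_aleph0_iff_set_countable, ← lt_aleph_one_iff]
  simpa using mk_Iio_lt i

variable {E : Type*} [AddCommGroup E] [Module ℚ E]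

theorem span_countable {S : Set E} (hS : S.Countable) :
    ((Submodule.span ℚ S : Submodule ℚ E) : Set E).Countable := by
  have : Countable S := hS
  rw [Finsupp.span_eq_range_linearCombination]
  have : Countable (S →₀ ℚ) := inferInstance
  rw [LinearMap.coe_range]
  exact countable_range _

open Classical in
/-- an enumeration of a countable set containing `0` -/
noncomputable def enum (T : Submodule ℚ E) : ℕ → E :=
  if h : (T : Set E).Countable then (h.exists_eq_range ⟨0, T.zero_mem⟩).choose else 0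

theorem mem_enum {T : Submodule ℚ E} (h : (T : Set E).Countable) {x : E} (hx : x ∈ T) :
    ∃ a, enum T a = x := by
  rw [enum, dif_pos h]
  have := (h.exists_eq_range ⟨0, T.zero_mem⟩).choose_spec
  have hx' : x ∈ (T : Set E) := hx
  rw [this] at hx'
  exact hx'

variable {ι : Type} [LinearOrder ι] [WellFoundedLT ι]

/-- the recursion -/
noncomputable def seq (F : ι → (ℕ → E) → E) (i : ι) : E :=
  WellFounded.fix (C := fun _ => E) (wellFounded_lt (α := ι))
    (fun i rec => F i (enum (Submodule.span ℚ {z | ∃ (j : ι) (h : j < i), rec j h = z}))) i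

theorem seq_eq (F : ι → (ℕ → E) → E) (i : ι) :
    seq F i = F i (enum (Submodule.span ℚ (seq F '' Iio i))) := by
  have h : {z | ∃ (j : ι) (_ : j < i), seq F j = z} = seq F '' Iio i := by
    ext z
    simp only [mem_ofPred_eq, mem_image, mem_Iio, exists_prop]
  rw [← h]
  unfold seq
  rw [WellFounded.fix_eq]

omit [WellFoundedLT ι] in
theorem span_Iic (y : ι → E) (T : Set ι) {g : E} (hg : g ∈ Submodule.span ℚ (y '' T)) :
    g = 0 ∨ ∃ j ∈ T, g ∈ Submodule.span ℚ (y '' Iic j) := by
  induction hg using Submodule.span_induction with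
  | mem x hx =>
    obtain ⟨j, hj, rfl⟩ := hx
    exact Or.inr ⟨j, hj, Submodule.subset_span ⟨j, self_mem_Iic, rfl⟩⟩
  | zero => exact Or.inl rfl
  | add a b _ _ iha ihb =>
    rcases iha with rfl | ⟨j, hj, ha⟩
    · rw [zero_add]; exact ihb
    rcases ihb with rfl | ⟨k, hk, hb⟩
    · rw [add_zero]; exact Or.inr ⟨j, hj, ha⟩
    right
    have hm : ∀ {p q : ι}, p ≤ q →
        Submodule.span ℚ (y '' Iic p) ≤ Submodule.span ℚ (y '' Iic q) := fun h =>
      Submodule.span_mono (image_mono (Iic_subset_Iic.2 h))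
    rcases le_total j k with h | h
    · exact ⟨k, hk, Submodule.add_mem _ (hm h ha) hb⟩
    · exact ⟨j, hj, Submodule.add_mem _ ha (hm h hb)⟩
  | smul c a _ ih =>
    rcases ih with rfl | ⟨j, hj, ha⟩
    · left; simp
    · exact Or.inr ⟨j, hj, Submodule.smul_mem _ _ ha⟩

/-- Every nonzero element of the span of `y` has the form `q • (y i + s)`, `s` in the span of the earlier
members, `q ≠ 0`. -/
theorem exists_top (y : ι → E) {g : E} (hg : g ∈ Submodule.span ℚ (range y)) (h0 : g ≠ 0) :
    ∃ (i : ι) (q : ℚ) (s : E), q ≠ 0 ∧ s ∈ Submodule.span ℚ (y '' Iio i) ∧ g = q • (y i + s) := by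
  rw [← image_univ] at hg
  obtain ⟨j, -, hj⟩ := (span_Iic y univ hg).resolve_left h0
  have hne : {i | g ∈ Submodule.span ℚ (y '' Iic i)}.Nonempty := ⟨j, hj⟩
  set i := (wellFounded_lt (α := ι)).min _ hne with hi
  have hmem : g ∈ Submodule.span ℚ (y '' Iic i) := (wellFounded_lt (α := ι)).min_mem _ hne
  have hmin : ∀ k, k < i → g ∉ Submodule.span ℚ (y '' Iic k) := fun k hk hg' =>
    (wellFounded_lt (α := ι)).not_lt_min _ hg' hk
  have hins : y '' Iic i = insert (y i) (y '' Iio i) := by
    rw [← Iio_insert, image_insert_eq]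
  rw [hins, Submodule.mem_span_insert] at hmem
  obtain ⟨q, s, hs, hg'⟩ := hmem
  have hq : q ≠ 0 := by
    rintro rfl
    rw [zero_smul, zero_add] at hg'
    rw [← hg'] at hs
    obtain ⟨k, hk, hk'⟩ := (span_Iic y _ hs).resolve_left h0
    exact hmin k hk hk'
  refine ⟨i, q, q⁻¹ • s, hq, Submodule.smul_mem _ _ hs, ?_⟩
  rw [smul_add, smul_inv_smul₀ hq, hg']

end Pool.Agent.Helper20.Luzin
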